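import Pool.Agent.Y854.GM.Win

/-! Auxiliary forms of the lemma on windows without elements of a thin set. -/

set_option autoImplicit false

namespace Pool.Agent.X39.Win

open Filter Topology MeasureTheory

/-- the exponent of convergence is at most `τ` -/
def ExpLe (v : ℕ → ℝ) (τ : ℝ) : Prop := ∀ t : ℝ, τ < t → Summable (fun n : ℕ => (v n) ^ (-t))

/-- counts at the integers are enough -/
theorem windows_nat {T : Type} (S : Set T) (h : T → ℝ) {v : ℕ → ℝ} {s τ θ : ℝ} (hpos : ∀ n, 1 ≤ v n)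
    (hτ : 0 ≤ τ) (hv : ExpLe v τ) (hs : 0 ≤ s) (hθ1 : θ < 1)
    (hS : ∀ ε : ℝ, 0 < ε → ∃ C : ℝ, ∀ X : ℕ, 1 ≤ X →
      {t | t ∈ S ∧ h t ≤ X}.Finite ∧ ({t | t ∈ S ∧ h t ≤ X}.ncard : ℝ) ≤ C * (X : ℝ) ^ (s + ε)) :
    ∃ E : Set ℝ, dimH E ≤ ENNReal.ofReal ((s + τ) / (1 - θ)) ∧ ∀ α : ℝ, 0 < α → α ∉ E →
      ∃ n0 : ℕ, ∀ n : ℕ, n0 ≤ n → ∀ t ∈ S, (v n) ^ θ < |h t - α * v n| := by
  refine Pool.Agent.Y854.GM.windows S h hpos hτ hv hs hθ1 (fun ε hε => ?_)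
  obtain ⟨C, hC⟩ := hS ε hε
  refine ⟨|C| * 2 ^ (s + ε), fun X hX => ?_⟩
  have hX1 : 1 ≤ ⌈X⌉₊ := Nat.one_le_ceil_iff.2 (by linarith)
  obtain ⟨h3, h4⟩ := hC ⌈X⌉₊ hX1
  have hsub : {t | t ∈ S ∧ h t ≤ X} ⊆ {t | t ∈ S ∧ h t ≤ ((⌈X⌉₊ : ℕ) : ℝ)} := by
    rintro t ⟨h5, h6⟩
    exact ⟨h5, h6.trans (Nat.le_ceil X)⟩
  refine ⟨h3.subset hsub, ?_⟩
  have h5 : (({t | t ∈ S ∧ h t ≤ X}.ncard : ℕ) : ℝ) ≤ C * ((⌈X⌉₊ : ℕ) : ℝ) ^ (s + ε) := by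
    refine le_trans ?_ h4
    exact_mod_cast Set.ncard_le_ncard hsub h3
  refine h5.trans ?_
  have h6 : ((⌈X⌉₊ : ℕ) : ℝ) ≤ 2 * X := by
    have := Nat.ceil_lt_add_one (by linarith : (0 : ℝ) ≤ X)
    linarith
  have h7 : ((⌈X⌉₊ : ℕ) : ℝ) ^ (s + ε) ≤ 2 ^ (s + ε) * X ^ (s + ε) := by
    rw [← Real.mul_rpow (by norm_num) (by linarith)]
    exact Real.rpow_le_rpow (Nat.cast_nonneg _) h6 (by positivity)
  calc C * ((⌈X⌉₊ : ℕ) : ℝ) ^ (s + ε) ≤ |C| * ((⌈X⌉₊ : ℕ) : ℝ) ^ (s + ε) :=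
        mul_le_mul_of_nonneg_right (le_abs_self C) (by positivity)
    _ ≤ |C| * (2 ^ (s + ε) * X ^ (s + ε)) := mul_le_mul_of_nonneg_left h7 (abs_nonneg C)
    _ = _ := by ring

/-- a family of exceptional sets whose exponents tend to `s` -/
theorem inter_dim {τ θ s : ℝ} (E : ℕ → Set ℝ) (u : ℕ → ℝ) (hu : Tendsto u atTop (𝓝 s))
    (hE : ∀ k, dimH (E k) ≤ ENNReal.ofReal ((u k + τ) / (1 - θ))) :
    dimH (⋂ k, E k) ≤ ENNReal.ofReal ((s + τ) / (1 - θ)) := by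
  have h1 : ∀ k : ℕ, dimH (⋂ k, E k) ≤ ENNReal.ofReal ((u k + τ) / (1 - θ)) := fun k =>
    (dimH_mono (Set.iInter_subset E k)).trans (hE k)
  have h3 : Tendsto (fun k : ℕ => ENNReal.ofReal ((u k + τ) / (1 - θ))) atTop
      (𝓝 (ENNReal.ofReal ((s + τ) / (1 - θ)))) :=
    ENNReal.tendsto_ofReal ((hu.add_const τ).div_const (1 - θ))
  exact ge_of_tendsto' h3 h1

/-- `1 / (k + a) → 0` -/
theorem tendsto_inv (a : ℝ) : Tendsto (fun k : ℕ => 1 / ((k : ℝ) + a)) atTop (𝓝 0) := by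
  refine Tendsto.div_atTop tendsto_const_nhds ?_
  exact tendsto_atTop_add_const_right _ _ tendsto_natCast_atTop_atTop

/-- a set of dimension less than `1` is a null set -/
theorem vol_zero {E : Set ℝ} {D : ℝ} (h : dimH E ≤ ENNReal.ofReal D) (hD : D < 1) :
    volume E = 0 := by
  have h1 : dimH E < 1 := by
    refine lt_of_le_of_lt h ?_
    rw [← ENNReal.ofReal_one]
    exact (ENNReal.ofReal_lt_ofReal_iff one_pos).2 hD
  have h2 : Measure.hausdorffMeasure (X := ℝ) 1 E = 0 :=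
    hausdorffMeasure_of_dimH_lt (d := 1) (by simpa using h1)
  rwa [hausdorffMeasure_real] at h2

/-- almost all `α` are outside a set of dimension less than `1` -/
theorem ae_of {E : Set ℝ} {D : ℝ} (h : dimH E ≤ ENNReal.ofReal D) (hD : D < 1) {P : ℝ → Prop}
    (hP : ∀ α : ℝ, 0 < α → α ∉ E → P α) : ∀ᵐ α : ℝ, 0 < α → P α := by
  have h1 : ∀ᵐ α : ℝ, α ∉ E := measure_eq_zero_iff_ae_notMem.1 (vol_zero h hD)
  filter_upwards [h1] with α hα hα0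
  exact hP α hα0 hα

end Pool.Agent.X39.Win
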