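import Pool.Agent.X39.Win.Basic

/-! Boxes with sides of different orders around the points of a thin sequence, without elements of a
thin set, for almost all vectors of amplitudes (Borel-Cantelli). -/

set_option autoImplicit false

namespace Pool.Agent.X39.Win

open Filter Topology MeasureTheory

open scoped ENNReal

/-- one bounded range of amplitudes -/
theorem vol_box {κ : Type} [Fintype κ] {T : Type} (F : Finset T) (h : T → κ → ℝ) (w θ : κ → ℝ) {v : ℝ}
    (hv : 1 ≤ v) :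
    volume {α : κ → ℝ | ∃ t ∈ F, ∀ j, |h t j - α j * v ^ w j| ≤ v ^ θ j} ≤
      ENNReal.ofReal ((F.card : ℝ) * (2 ^ Fintype.card κ * v ^ (∑ j, (θ j - w j)))) := by
  have hv0 : 0 < v := by linarith
  have hsub : {α : κ → ℝ | ∃ t ∈ F, ∀ j, |h t j - α j * v ^ w j| ≤ v ^ θ j} ⊆
      ⋃ t ∈ F, Set.Icc (fun j => h t j / v ^ w j - v ^ (θ j - w j))
        (fun j => h t j / v ^ w j + v ^ (θ j - w j)) := by
    rintro α ⟨t, ht, hα⟩
    rw [Set.mem_iUnion₂]
    refine ⟨t, ht, ?_⟩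
    have key : ∀ j, |h t j / v ^ w j - α j| ≤ v ^ (θ j - w j) := by
      intro j
      have hw : 0 < v ^ w j := Real.rpow_pos_of_pos hv0 _
      have h1 : h t j / v ^ w j - α j = (h t j - α j * v ^ w j) / v ^ w j := by
        field_simp
      rw [h1, abs_div, abs_of_pos hw, Real.rpow_sub hv0]
      exact div_le_div_of_nonneg_right (hα j) hw.le
    constructor
    · intro j
      have := (abs_le.1 (key j)).2
      simp only
      linarith
    · intro j
      have := (abs_le.1 (key j)).1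
      simp only
      linarith
  refine (measure_mono hsub).trans ((measure_biUnion_finset_le F _).trans ?_)
  have hvol : ∀ t ∈ F, volume (Set.Icc (fun j => h t j / v ^ w j - v ^ (θ j - w j))
        (fun j => h t j / v ^ w j + v ^ (θ j - w j))) =
      ENNReal.ofReal (2 ^ Fintype.card κ * v ^ (∑ j, (θ j - w j))) := by
    intro t _
    rw [Real.volume_Icc_pi]
    have h2 : ∀ j, ENNReal.ofReal (h t j / v ^ w j + v ^ (θ j - w j) -
        (h t j / v ^ w j - v ^ (θ j - w j))) = ENNReal.ofReal (2 * v ^ (θ j - w j)) := by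
      intro j
      congr 1
      ring
    simp only [h2]
    rw [← ENNReal.ofReal_prod_of_nonneg (fun j _ => by positivity), Finset.prod_mul_distrib,
      Finset.prod_const, Finset.card_univ, Real.rpow_sum_of_pos hv0]
  rw [Finset.sum_congr rfl hvol, Finset.sum_const, nsmul_eq_mul,
    ENNReal.ofReal_mul (Nat.cast_nonneg _), ENNReal.ofReal_natCast]

/-- **Borel-Cantelli for boxes.** Let `S` have at most `C X ^ (s + ε)` elements `t` with
`|h t j| ≤ A X ^ (w j)` for all `j`, for each `A` and `ε > 0`, let the exponent of convergence of the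
sequence `v ≥ 1` be at most `τ`, `θ j ≤ w j` and `s + τ < ∑ (w j - θ j)`. For almost all `α` and all but
finitely many `n` no element `t` of `S` satisfies `|h t j - α j v_n ^ (w j)| ≤ v_n ^ (θ j)` for all `j`. -/
theorem ae_boxes {κ : Type} [Fintype κ] {T : Type} (S : Set T) (h : T → κ → ℝ) (w θ : κ → ℝ)
    {v : ℕ → ℝ} {s τ : ℝ} (hpos : ∀ n, 1 ≤ v n) (hv : ExpLe v τ) (hθ : ∀ j, θ j ≤ w j)
    (hsum : s + τ < ∑ j, (w j - θ j))
    (hS : ∀ (A : ℕ) (ε : ℝ), 0 < ε → ∃ C : ℝ, ∀ X : ℝ, 1 ≤ X →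
      {t | t ∈ S ∧ ∀ j, |h t j| ≤ A * X ^ w j}.Finite ∧
        ({t | t ∈ S ∧ ∀ j, |h t j| ≤ A * X ^ w j}.ncard : ℝ) ≤ C * X ^ (s + ε)) :
    ∀ᵐ α : κ → ℝ, ∃ n₀ : ℕ, ∀ n : ℕ, n₀ ≤ n → ∀ t ∈ S,
      ¬ ∀ j, |h t j - α j * v n ^ w j| ≤ v n ^ θ j := by
  set σ : ℝ := ∑ j, (w j - θ j) with hσ
  set ε : ℝ := (σ - s - τ) / 2 with hε
  have hε0 : 0 < ε := by rw [hε]; linarith
  have hneg : ∑ j, (θ j - w j) = -σ := by
    rw [hσ, ← Finset.sum_neg_distrib]
    exact Finset.sum_congr rfl fun j _ => by ring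
  have hA : ∀ A : ℕ, volume {α : κ → ℝ | ∃ᶠ n in atTop, (∀ j, |α j| ≤ A) ∧
      ∃ t ∈ S, ∀ j, |h t j - α j * v n ^ w j| ≤ v n ^ θ j} = 0 := by
    intro A
    apply measure_setOf_frequently_eq_zero
    obtain ⟨C, hC⟩ := hS (A + 1) ε hε0
    have hτ' : τ < σ - s - ε := by rw [hε]; linarith
    have h1 : Summable (fun n => (|C| * 2 ^ Fintype.card κ) * (v n) ^ (-(σ - s - ε))) :=
      (hv _ hτ').mul_left _
    have h2 : ∀ n, volume {α : κ → ℝ | (∀ j, |α j| ≤ A) ∧
        ∃ t ∈ S, ∀ j, |h t j - α j * v n ^ w j| ≤ v n ^ θ j} ≤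
        ENNReal.ofReal ((|C| * 2 ^ Fintype.card κ) * (v n) ^ (-(σ - s - ε))) := by
      intro n
      have hv0 : 0 < v n := by linarith [hpos n]
      obtain ⟨h3, h4⟩ := hC (v n) (hpos n)
      have h5 : {α : κ → ℝ | (∀ j, |α j| ≤ A) ∧
          ∃ t ∈ S, ∀ j, |h t j - α j * v n ^ w j| ≤ v n ^ θ j} ⊆
          {α : κ → ℝ | ∃ t ∈ h3.toFinset, ∀ j, |h t j - α j * v n ^ w j| ≤ v n ^ θ j} := by
        rintro α ⟨h6, t, ht, h7⟩
        refine ⟨t, ?_, h7⟩
        rw [Set.Finite.mem_toFinset]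
        refine ⟨ht, fun j => ?_⟩
        have hw : 0 < v n ^ w j := Real.rpow_pos_of_pos hv0 _
        have h8 : v n ^ θ j ≤ v n ^ w j := Real.rpow_le_rpow_of_exponent_le (hpos n) (hθ j)
        have h9 : |h t j| ≤ |h t j - α j * v n ^ w j| + |α j * v n ^ w j| := by
          have := abs_add_le (h t j - α j * v n ^ w j) (α j * v n ^ w j)
          simpa using this
        have h10 : |α j * v n ^ w j| ≤ A * v n ^ w j := by
          rw [abs_mul, abs_of_pos hw]
          exact mul_le_mul_of_nonneg_right (h6 j) hw.le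
        have h11 := h7 j
        push_cast
        linarith
      refine (measure_mono h5).trans ((vol_box _ h w θ (hpos n)).trans ?_)
      apply ENNReal.ofReal_le_ofReal
      have h12 : ((h3.toFinset.card : ℕ) : ℝ) ≤ |C| * v n ^ (s + ε) := by
        rw [← Set.ncard_eq_toFinset_card _ h3]
        exact h4.trans (mul_le_mul_of_nonneg_right (le_abs_self C) (by positivity))
      rw [hneg]
      calc ((h3.toFinset.card : ℕ) : ℝ) * (2 ^ Fintype.card κ * v n ^ (-σ)) ≤
          (|C| * v n ^ (s + ε)) * (2 ^ Fintype.card κ * v n ^ (-σ)) :=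
            mul_le_mul_of_nonneg_right h12 (by positivity)
        _ = (|C| * 2 ^ Fintype.card κ) * (v n ^ (s + ε) * v n ^ (-σ)) := by ring
        _ = _ := by
            rw [← Real.rpow_add hv0]
            congr 2
            ring
    exact ne_top_of_le_ne_top h1.tsum_ofReal_ne_top (ENNReal.tsum_le_tsum h2)
  have hU : volume (⋃ A : ℕ, {α : κ → ℝ | ∃ᶠ n in atTop, (∀ j, |α j| ≤ A) ∧
      ∃ t ∈ S, ∀ j, |h t j - α j * v n ^ w j| ≤ v n ^ θ j}) = 0 := measure_iUnion_null_iff.2 hA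
  filter_upwards [measure_eq_zero_iff_ae_notMem.1 hU] with α hα
  rw [Set.mem_iUnion] at hα
  push Not at hα
  obtain ⟨A, hAα⟩ : ∃ A : ℕ, ∀ j, |α j| ≤ A := by
    obtain ⟨A, hA⟩ := exists_nat_ge (∑ j, |α j|)
    exact ⟨A, fun j => (Finset.single_le_sum (f := fun j => |α j|) (fun _ _ => abs_nonneg _)
      (Finset.mem_univ j)).trans hA⟩
  have h1 := hα A
  rw [Set.mem_setOf_eq, Filter.not_frequently, eventually_atTop] at h1
  obtain ⟨n₀, hn⟩ := h1
  exact ⟨n₀, fun n hn1 t ht hcon => hn n hn1 ⟨hAα, t, ht, hcon⟩⟩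

end Pool.Agent.X39.Win
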