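import Pool.Agent.X39.Win.Box

/-! Boxes in the plane without the members of a thin set of pairs `(a, b)` of integers, ordered by
`max (|a| ^ (1/2), |b| ^ (1/3))`. -/

set_option autoImplicit false

namespace Pool.Agent.X39.Win

open Filter Topology MeasureTheory

/-- there are at most `K X ^ (s + ε)` members with `|a| ≤ X ^ 2`, `|b| ≤ X ^ 3` -/
def Thin (S : Set (ℤ × ℤ)) (s : ℝ) : Prop :=
  ∀ ε : ℝ, 0 < ε → ∃ K : ℝ, ∀ X : ℝ, 1 ≤ X →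
    ((({q ∈ S | |(q.1 : ℝ)| ≤ X ^ 2 ∧ |(q.2 : ℝ)| ≤ X ^ 3}).ncard : ℕ) : ℝ) ≤ K * X ^ (s + ε)

theorem box_finite (X : ℝ) : {q : ℤ × ℤ | |(q.1 : ℝ)| ≤ X ^ 2 ∧ |(q.2 : ℝ)| ≤ X ^ 3}.Finite := by
  have hsub : {q : ℤ × ℤ | |(q.1 : ℝ)| ≤ X ^ 2 ∧ |(q.2 : ℝ)| ≤ X ^ 3} ⊆
      (((Finset.Icc (-⌊X ^ 2⌋) ⌊X ^ 2⌋) ×ˢ (Finset.Icc (-⌊X ^ 3⌋) ⌊X ^ 3⌋) : Finset (ℤ × ℤ)) :
        Set (ℤ × ℤ)) := by
    rintro q ⟨h1, h2⟩
    rw [Finset.mem_coe, Finset.mem_product, Finset.mem_Icc, Finset.mem_Icc]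
    have h3 : |q.1| ≤ ⌊X ^ 2⌋ := Int.le_floor.2 (by exact_mod_cast h1)
    have h4 : |q.2| ≤ ⌊X ^ 3⌋ := Int.le_floor.2 (by exact_mod_cast h2)
    exact ⟨⟨by linarith [(abs_le.1 h3).1], (abs_le.1 h3).2⟩,
      by linarith [(abs_le.1 h4).1], (abs_le.1 h4).2⟩
  exact (Finset.finite_toSet _).subset hsub

/-- **Boxes without members of a thin set of pairs.** -/
theorem pairs (S : Set (ℤ × ℤ)) {s : ℝ} (hS : Thin S s) {v : ℕ → ℝ} {τ θ₁ θ₂ : ℝ}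
    (hpos : ∀ n, 1 ≤ v n) (hv : ExpLe v τ) (h1 : θ₁ ≤ 2) (h2 : θ₂ ≤ 3)
    (hsum : s + τ + θ₁ + θ₂ < 5) :
    ∀ᵐ p : ℝ × ℝ, ∃ n₀ : ℕ, ∀ n : ℕ, n₀ ≤ n → ∀ q ∈ S,
      ¬ (|(q.1 : ℝ) - p.1 * v n ^ 2| ≤ v n ^ θ₁ ∧ |(q.2 : ℝ) - p.2 * v n ^ 3| ≤ v n ^ θ₂) := by
  have key := ae_boxes S (fun q : ℤ × ℤ => ![(q.1 : ℝ), (q.2 : ℝ)]) (![2, 3] : Fin 2 → ℝ)
    (![θ₁, θ₂] : Fin 2 → ℝ) hpos hv (s := s) (τ := τ)
    (by
      intro j
      fin_cases j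
      · simpa using h1
      · simpa using h2)
    (by
      rw [Fin.sum_univ_two]
      simp only [Matrix.cons_val_zero, Matrix.cons_val_one]
      linarith)
    (by
      intro A ε hε
      obtain ⟨K, hK⟩ := hS ε hε
      refine ⟨|K| * ((A : ℝ) + 1) ^ (s + ε), fun X hX => ?_⟩
      have hX0 : 0 < X := by linarith
      have hA : (0 : ℝ) ≤ A := Nat.cast_nonneg A
      have hsub : {q | q ∈ S ∧ ∀ j, |(![(q.1 : ℝ), (q.2 : ℝ)] : Fin 2 → ℝ) j| ≤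
          A * X ^ (![2, 3] : Fin 2 → ℝ) j} ⊆
          {q ∈ S | |(q.1 : ℝ)| ≤ (((A : ℝ) + 1) * X) ^ 2 ∧ |(q.2 : ℝ)| ≤ (((A : ℝ) + 1) * X) ^ 3} := by
        rintro q ⟨h3, h4⟩
        have h5 := h4 0
        have h6 := h4 1
        simp only [Matrix.cons_val_zero, Matrix.cons_val_one] at h5 h6
        have e2 : X ^ (2 : ℝ) = X ^ 2 := by
          rw [← Real.rpow_natCast X 2]; norm_num
        have e3 : X ^ (3 : ℝ) = X ^ 3 := by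
          rw [← Real.rpow_natCast X 3]; norm_num
        rw [e2] at h5
        rw [e3] at h6
        refine ⟨h3, h5.trans ?_, h6.trans ?_⟩
        · rw [mul_pow]
          refine mul_le_mul_of_nonneg_right ?_ (by positivity)
          nlinarith
        · rw [mul_pow]
          refine mul_le_mul_of_nonneg_right ?_ (by positivity)
          nlinarith [pow_nonneg hA 2, pow_nonneg hA 3]
      have hfin := (box_finite (((A : ℝ) + 1) * X)).subset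
        (show {q ∈ S | |(q.1 : ℝ)| ≤ (((A : ℝ) + 1) * X) ^ 2 ∧
          |(q.2 : ℝ)| ≤ (((A : ℝ) + 1) * X) ^ 3} ⊆ _ from fun q hq => hq.2)
      refine ⟨hfin.subset hsub, ?_⟩
      have h7 : 1 ≤ ((A : ℝ) + 1) * X := by nlinarith
      have h8 := hK _ h7
      calc (({q | q ∈ S ∧ ∀ j, |(![(q.1 : ℝ), (q.2 : ℝ)] : Fin 2 → ℝ) j| ≤
          A * X ^ (![2, 3] : Fin 2 → ℝ) j}.ncard : ℕ) : ℝ) ≤ _ :=
            Nat.cast_le.2 (Set.ncard_le_ncard hsub hfin)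
        _ ≤ K * (((A : ℝ) + 1) * X) ^ (s + ε) := h8
        _ ≤ |K| * (((A : ℝ) + 1) * X) ^ (s + ε) :=
            mul_le_mul_of_nonneg_right (le_abs_self K) (by positivity)
        _ = _ := by rw [Real.mul_rpow (by positivity) hX0.le]; ring)
  have h3 := ((volume_preserving_finTwoArrow ℝ).symm _).quasiMeasurePreserving.ae key
  filter_upwards [h3] with p hp
  obtain ⟨n₀, hn⟩ := hp
  refine ⟨n₀, fun n hn1 q hq hcon => hn n hn1 q hq ?_⟩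
  obtain ⟨c1, c2⟩ := hcon
  intro j
  fin_cases j
  · have e2 : v n ^ (2 : ℝ) = v n ^ 2 := by
      rw [← Real.rpow_natCast (v n) 2]; norm_num
    show |(q.1 : ℝ) - p.1 * v n ^ (2 : ℝ)| ≤ v n ^ θ₁
    rw [e2]
    exact c1
  · have e3 : v n ^ (3 : ℝ) = v n ^ 3 := by
      rw [← Real.rpow_natCast (v n) 3]; norm_num
    show |(q.2 : ℝ) - p.2 * v n ^ (3 : ℝ)| ≤ v n ^ θ₂
    rw [e3]
    exact c2

end Pool.Agent.X39.Win
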